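import Mathlib
import Pool.Agent.H.MP_87f021_gt.Para

set_option autoImplicit false

namespace Pool.Agent.Results.MP_87f021_gt.Counter

open Pool.Agent.H.MP_87f021_gt TopologicalSpace

theorem result : ∃ (Y : Type) (_ : TopologicalSpace Y), T3Space Y ∧
    (∀ y : Y, ¬ IsOpen ({y} : Set Y)) ∧
    ∃ B : Set (Set Y), IsTopologicalBasis B ∧ (∀ U ∈ B, ∀ V ∈ B, U ∩ V ∈ B) ∧
      ∀ B₀ B₁ : Set (Set Y), B₀ ∪ B₁ = B → Disjoint B₀ B₁ →
        ¬ (IsTopologicalBasis B₀ ∧ IsTopologicalBasis B₁) := by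
  refine ⟨X, inferInstance, inferInstance, noiso, insert ∅ (Set.range Bs), basis.insert_empty, ?_,
    fun B0 B1 h hd => not_res B0 B1 h.le hd⟩
  rintro _ (rfl | ⟨a, rfl⟩) _ (rfl | ⟨b, rfl⟩)
  · simp
  · simp
  · simp
  · rcases (Bs a ∩ Bs b).eq_empty_or_nonempty with h | ⟨y, h1, h2⟩
    · exact Or.inl h
    · exact Or.inr (inter h1 h2)

end Pool.Agent.Results.MP_87f021_gt.Counter
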